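import Pool.Agent.helper34.MO.SpecC

set_option autoImplicit false

open Complex Finset

namespace Pool.Agent.MO

theorem SCP_al (hSEC : SEC_stmt) (t : ℝ) (τ : Tr) (ht : 0 < t) :
    0 ≤ (bd (uni t τ)).al.re ∧ |(bd (uni t τ)).al.im| ≤ 2 / t * (bd (uni t τ)).al.re := by
  have h := (hSEC t τ 1 0 ht).1
  simp only [mul_one, mul_zero, add_zero, map_one, one_mul, map_zero, zero_mul, zero_im] at h
  refine ⟨?_, h⟩
  have h2 : 0 ≤ 2 / t * (bd (uni t τ)).al.re := (abs_nonneg _).trans h
  have h3 : 0 < 2 / t := by positivity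
  exact nonneg_of_mul_nonneg_right h2 h3

theorem SCP_be (hSEC : SEC_stmt) (t : ℝ) (τ : Tr) (ht : 0 < t) :
    0 ≤ (bd (uni t τ)).be.re ∧ |(bd (uni t τ)).be.im| ≤ 2 / t * (bd (uni t τ)).be.re := by
  have h := (hSEC t τ 0 1 ht).1
  simp only [mul_one, mul_zero, zero_add, map_one, one_mul, map_zero, zero_mul, zero_im] at h
  refine ⟨?_, h⟩
  have h2 : 0 ≤ 2 / t * (bd (uni t τ)).be.re := (abs_nonneg _).trans h
  have h3 : 0 < 2 / t := by positivity
  exact nonneg_of_mul_nonneg_right h2 h3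

theorem SCP (hSEC : SEC_stmt) : SCP_stmt := by
  intro t l r ht
  have hal := SCP_al hSEC t l ht
  have hbe := SCP_be hSEC t l ht
  have har := SCP_al hSEC t r ht
  have h2t : 2 / t * t = 2 := by field_simp
  refine ⟨?_, ?_, ?_⟩
  · show t ≤ (pv t (bd (uni t l)) (bd (uni t r))).re ∧ |(pv t (bd (uni t l)) (bd (uni t r))).im| ≤ 2 / t * (pv t (bd (uni t l)) (bd (uni t r))).re
    unfold pv
    simp only [add_re, add_im, ofReal_re, ofReal_im, zero_add]
    refine ⟨by linarith [hbe.1, har.1], ?_⟩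
    refine (abs_add_le _ _).trans ?_
    have := hbe.2
    have := har.2
    nlinarith [h2t]
  · show t ≤ ((t : ℂ) + (bd (uni t l)).al).re ∧ |((t : ℂ) + (bd (uni t l)).al).im| ≤ 2 / t * ((t : ℂ) + (bd (uni t l)).al).re
    simp only [add_re, add_im, ofReal_re, ofReal_im, zero_add]
    refine ⟨by linarith [hal.1], ?_⟩
    have := hal.2
    nlinarith [h2t]
  · show t ≤ ((t : ℂ) + (bd (uni t l)).be - ((bd (uni t l)).mu - I) ^ 2 / (t + (bd (uni t l)).al)).re ∧
      |((t : ℂ) + (bd (uni t l)).be - ((bd (uni t l)).mu - I) ^ 2 / (t + (bd (uni t l)).al)).im| ≤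
        2 / t * ((t : ℂ) + (bd (uni t l)).be - ((bd (uni t l)).mu - I) ^ 2 / (t + (bd (uni t l)).al)).re
    set al := (bd (uni t l)).al with hald
    set be := (bd (uni t l)).be with hbed
    set mu := (bd (uni t l)).mu with hmud
    have hne : (t : ℂ) + al ≠ 0 := by
      intro h0
      have := congrArg Complex.re h0
      simp only [add_re, ofReal_re, zero_re] at this
      linarith [hal.1]
    set y : ℂ := -(mu - I) / (t + al) with hy
    set P : ℂ := (t : ℂ) + be - (mu - I) ^ 2 / (t + al) with hP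
    have hSa : al * y + mu * 1 = -(t : ℂ) * y + I := by
      have : ((t : ℂ) + al) * y = -(mu - I) := by
        rw [hy]
        field_simp
      linear_combination this
    have hSb : mu * y + be * 1 = P - t + I * y := by
      rw [hP, hy]
      field_simp
      ring
    obtain ⟨h1, _, h3⟩ := hSEC t l y 1 ht
    rw [← hald, ← hbed, ← hmud, hSa, hSb] at h1 h3
    simp only [map_one, one_mul, add_re, sub_re, mul_re, conj_re, conj_im, neg_re, neg_im, ofReal_re, ofReal_im, I_re, I_im,
      add_im, sub_im, mul_im, neg_zero, zero_mul, mul_zero, sub_zero, add_zero, zero_add, mul_one, zero_sub] at h1 h3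
    have hns : ‖y‖ ^ 2 = y.re ^ 2 + y.im ^ 2 := by
      rw [← Complex.normSq_eq_norm_sq, Complex.normSq_apply]
      ring
    rw [hns] at h3
    have hR : 0 ≤ P.re - t - t * (y.re ^ 2 + y.im ^ 2) := by
      have h2 := (abs_nonneg _).trans h1
      have h4 : 0 < 2 / t := by positivity
      have h5 := nonneg_of_mul_nonneg_right h2 h4
      nlinarith [h5]
    have hyy : 0 ≤ y.re ^ 2 + y.im ^ 2 := by positivity
    have hty : 0 ≤ t * (y.re ^ 2 + y.im ^ 2) := mul_nonneg ht.le hyy
    refine ⟨by linarith, ?_⟩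
    have e1 : ∀ q : ℝ, |q| = |-q| := fun q => (abs_neg q).symm
    have key : |P.im| ≤ 2 / t * (P.re - t - t * (y.re ^ 2 + y.im ^ 2)) + (y.re ^ 2 + y.im ^ 2) := by
      rw [e1]
      refine le_trans (le_of_eq ?_) (h3.trans (le_of_eq ?_))
      · congr 1
        ring
      · ring
    refine key.trans ?_
    have h6 : 2 / t * (P.re - t - t * (y.re ^ 2 + y.im ^ 2)) = 2 / t * P.re - 2 - 2 * (y.re ^ 2 + y.im ^ 2) := by
      field_simp
    rw [h6]
    linarith

end Pool.Agent.MO
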